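import Pool.Agent.R257.SV.Final
import Pool.Agent.R257.SV.PartD
import Pool.Agent.R257.SV.PartE
import Pool.Agent.R257.SV.PartF
import Pool.Agent.R257.SV.PartG
import Pool.Agent.R257.SV.PartI
import Pool.Agent.R257.SV.PartK
import Pool.Agent.R257.SV.PartL
import Pool.Agent.R257.SV.PartN
import Pool.Agent.R257.SV.PartO

/-!
# Pinned simplex volumes: the push forward measure is absolutely continuous

Let `2 ≤ k ≤ d` and let `μ` be a nonzero finite Borel measure on `ℝ^d` with finite `s`-energy for
some `s > (d + k - 1) / 2`. Then for every pin `x₀` the push forward `ν` of `μ^k` under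
`(x₁, …, x_k) ↦ |(x₁ - x₀) ∧ ⋯ ∧ (x_k - x₀)|` is absolutely continuous with respect to Lebesgue
measure on the whole line, and it charges some interval `(0, b)`.

Idea. One conditions on `k - 2` of the vectors and projects onto the orthogonal complement of their
span, of dimension `m = d - k + 2`; a Frostman measure of exponent `s` projects to one of exponent
`s - (k - 2) > (m + 1) / 2`, and it remains to treat `|x|²|y|² - ⟨x,y⟩²`. Near pairs with
`⟨x,y⟩ ≠ 0` and `x ∧ y ≠ 0` the mixed Hessian is nondegenerate and an oscillatory integral estimate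
shows that the Fourier transform of the push forward is square integrable. Pairs with `⟨x,y⟩ = 0` form
a null set, as two orthogonal subspaces cannot both have dimension above `m / 2`.
-/

set_option autoImplicit false

open MeasureTheory Metric Set Filter Topology Module
open scoped ENNReal NNReal InnerProductSpace

namespace Pool.Agent.Results.MP_83cc0d_an.PinnedVolumeAC

open R257.SV

/-- `|v₁ ∧ ⋯ ∧ v_k| = √(det (v_i · v_j))`. -/
noncomputable def wedgeVol {d k : ℕ} (v : Fin k → EuclideanSpace ℝ (Fin d)) : ℝ :=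
  Real.sqrt (Matrix.det (Matrix.of fun i j => ⟪v i, v j⟫_ℝ))

/-- The push forward `ν` of `μ^k` under `Ψ(x₁, …, x_k) = |(x₁ - x₀) ∧ ⋯ ∧ (x_k - x₀)|`. -/
noncomputable def volMeasure {d : ℕ} (k : ℕ) (μ : Measure (EuclideanSpace ℝ (Fin d)))
    (x₀ : EuclideanSpace ℝ (Fin d)) : Measure ℝ :=
  (Measure.pi fun _ : Fin k => μ).map fun x => wedgeVol fun i => x i - x₀

/-- The `s`-energy `I_s(μ) = ∬ |x - y|^{-s} dμ dμ`. -/
noncomputable def energy {d : ℕ} (s : ℝ) (μ : Measure (EuclideanSpace ℝ (Fin d))) : ℝ≥0∞ :=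
  ∫⁻ x, ∫⁻ y, ‖x - y‖ₑ ^ (-s) ∂μ ∂μ

lemma energy_translate {d : ℕ} (s : ℝ) (μ : Measure (EuclideanSpace ℝ (Fin d)))
    (x₀ : EuclideanSpace ℝ (Fin d)) : energy s (μ.map fun x => x - x₀) = energy s μ := by
  have he : MeasurableEmbedding (fun x : EuclideanSpace ℝ (Fin d) => x - x₀) :=
    (Homeomorph.subRight x₀).measurableEmbedding
  unfold energy
  rw [he.lintegral_map]
  simp only [he.lintegral_map, sub_sub_sub_cancel_right]

lemma volMeasure_eq {d : ℕ} (k : ℕ) (μ : Measure (EuclideanSpace ℝ (Fin d))) [IsFiniteMeasure μ]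
    (x₀ : EuclideanSpace ℝ (Fin d)) : volMeasure k μ x₀ =
    (Measure.pi fun _ : Fin k => μ.map fun x => x - x₀).map fun v => Real.sqrt (gramDet v) := by
  have hm : Measurable (fun x : EuclideanSpace ℝ (Fin d) => x - x₀) := by fun_prop
  have hm2 : Measurable (fun v : Fin k → EuclideanSpace ℝ (Fin d) => Real.sqrt (gramDet v)) :=
    gramDet_continuous.measurable.sqrt
  rw [← Measure.pi_map_pi (fun _ => hm.aemeasurable), Measure.map_map hm2 (by fun_prop)]
  rfl

/-- **The push forward of `μ^k` under the pinned `k`-volume is absolutely continuous.** -/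
theorem result : ∀ (d k : ℕ), 2 ≤ k → k ≤ d → ∀ (μ : Measure (EuclideanSpace ℝ (Fin d)))
    [IsFiniteMeasure μ], μ ≠ 0 → ∀ s : ℝ, ((d : ℝ) + k - 1) / 2 < s → energy s μ < ⊤ →
    ∀ x₀ : EuclideanSpace ℝ (Fin d),
      volMeasure k μ x₀ ≪ volume ∧ ∃ b : ℝ, 0 < b ∧ 0 < volMeasure k μ x₀ (Ioo 0 b) := by
  intro d k hk hkd μ _ hμ s hs hI x₀
  set μt := μ.map fun x => x - x₀ with hμt
  have hm : Measurable (fun x : EuclideanSpace ℝ (Fin d) => x - x₀) := by fun_prop
  have hfin : finrank ℝ (EuclideanSpace ℝ (Fin d)) = d := by simp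
  have hkr : (2 : ℝ) ≤ k := by exact_mod_cast hk
  have hkdr : (k : ℝ) ≤ d := by exact_mod_cast hkd
  have hIt : ∫⁻ x, ∫⁻ y, ‖x - y‖ₑ ^ (-s) ∂μt ∂μt < ⊤ := by
    have := energy_translate s μ x₀
    unfold energy at this hI
    rw [hμt, this]; exact hI
  have hm2 : Measurable (fun v : Fin k → EuclideanSpace ℝ (Fin d) => Real.sqrt (gramDet v)) :=
    gramDet_continuous.measurable.sqrt
  rw [volMeasure_eq]
  constructor
  · refine Measure.AbsolutelyContinuous.mk fun N hN hN0 => ?_
    rw [Measure.map_apply hm2 hN]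
    exact vol_null stmE stmP (stmC (stmL stmG) stmD stmF stmN (stmO stmH)) stmK stmH stmI μt s k hk (by rw [hfin]; exact hkd)
      (by rw [hfin]; exact hs) hIt N hN0
  · by_contra hcon
    push Not at hcon
    have h0 : (Measure.pi fun _ : Fin k => μt) {v | ¬ 0 < gramDet v} = 0 :=
      indep_ae stmE stmH stmI stmK μt s k (by linarith) (by linarith) hIt
    have h1 : ∀ n : ℕ, (Measure.pi fun _ : Fin k => μt)
        ((fun v => Real.sqrt (gramDet v)) ⁻¹' (Ioo 0 ((n : ℝ) + 1))) = 0 := by
      intro n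
      have := hcon ((n : ℝ) + 1) (by positivity)
      rw [Measure.map_apply hm2 measurableSet_Ioo] at this
      exact le_antisymm this bot_le
    have h2 : (Measure.pi fun _ : Fin k => μt) univ = 0 := by
      refine measure_mono_null ?_ (measure_union_null h0 (measure_iUnion_null h1))
      intro v _
      by_cases h : 0 < gramDet v
      · right
        obtain ⟨n, hn⟩ := exists_nat_gt (Real.sqrt (gramDet v))
        exact mem_iUnion.mpr ⟨n, Real.sqrt_pos.mpr h, by linarith⟩
      · left; exact h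
    rw [Measure.pi_univ] at h2
    have h3 := Finset.prod_eq_zero_iff.mp h2
    obtain ⟨i, -, hi⟩ := h3
    rw [hμt, Measure.map_apply hm MeasurableSet.univ, preimage_univ] at hi
    exact hμ (Measure.measure_univ_eq_zero.mp hi)

end Pool.Agent.Results.MP_83cc0d_an.PinnedVolumeAC
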